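import Mathlib
import Pool.Agent.Helper56.TOF.Goals

/-! # Project TOF, packet NEB (after Helper26, packet NEG of project CIR) -/

set_option autoImplicit false

open Set Filter Topology MeasureTheory

open scoped ContDiff

namespace Pool.Agent.Helper89.TOF

open Pool.Agent.Helper56.RZ Pool.Agent.Helper30.CIR Pool.Agent.Helper56.TOF

variable {K : ℕ} {s : WithTop ℕ∞} {M : Set (E K)} {A : ℝ → E K → E K}

theorem gNEB : Pool.Agent.Helper30.CIR.StmtXF → StmtGDR → StmtNEB := by
  intro hXF hGDR K s M m A u Q hs hs' hM hm hA hu hT1 hkc hkpos hQ hth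
  obtain ⟨hXc, hX⟩ := hXF K s M A hs hA
  have hG := hGDR K s M A u hs hs' hA hu
  set g := A 1 ∘ hT A u with hg
  have hgM : MapsTo g M M := fun x hx => hA.maps _ (hT1 hx)
  have hgn : ∀ n, MapsTo (g^[n]) M M := fun n => hgM.iterate n
  have hgx : ∀ x ∈ M, g x = A (1 + u x) x := by
    intro x hx
    show A 1 (A (u x) x) = A (1 + u x) x
    rw [hA.add 1 (u x) x hx]
  -- zeros of the generator
  have hfix : ∀ x ∈ M, gen A x = 0 → ∀ t, A t x = x := fun x hx h0 => ((hG x hx).2.2.1 h0).1
  have hkone : ∀ x ∈ M, gen A x = 0 → kapT A u x = 1 := fun x hx h0 => ((hG x hx).2.2.1 h0).2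
  have hback : ∀ x ∈ M, gen A (g x) = 0 → gen A x = 0 := by
    intro x hx h0
    have h1 := hfix _ (hgM hx) h0 (-(1 + u x))
    rw [hgx x hx, ← hA.add _ _ x hx] at h1
    have h2 : -(1 + u x) + (1 + u x) = 0 := by ring
    rw [h2, hA.zero x hx] at h1
    rw [hgx x hx, ← h1] at h0
    exact h0
  have hback' : ∀ n, ∀ x ∈ M, gen A (g^[n] x) = 0 → gen A x = 0 := by
    intro n
    induction n with
    | zero => intro x _ h; exact h
    | succ n ih =>
      intro x hx h
      rw [Function.iterate_succ_apply] at h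
      exact hback x hx (ih (g x) (hgM hx) h)
  have hite : ∀ n : ℕ, ∀ x ∈ M, der M (g^[n]) x (gen A x) =
      (∏ k ∈ Finset.range n, kapT A u (g^[k] x)) • gen A (g^[n] x) :=
    fun n x hx => (hG x hx).2.2.2 n
  have hDpos : ∀ n, ∀ x ∈ M, 0 < ∏ k ∈ Finset.range n, kapT A u (g^[k] x) := fun n x hx =>
    Finset.prod_pos fun k _ => hkpos _ (hgn k hx)
  have hlog : ∀ n, ∀ x ∈ M, Real.log (∏ k ∈ Finset.range n, kapT A u (g^[k] x)) =
      ∑ k ∈ Finset.range n, Real.log (kapT A u (g^[k] x)) := fun n x hx =>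
    Real.log_prod fun k _ => (hkpos _ (hgn k hx)).ne'
  have hgfix : ∀ k, ∀ x ∈ M, gen A x = 0 → g^[k] x = x := by
    intro k x hx h0
    induction k with
    | zero => rfl
    | succ k ih =>
      rw [Function.iterate_succ_apply', ih, hgx x hx]
      exact hfix x hx h0 _
  have hzero : ∀ n, ∀ x ∈ M, gen A x = 0 →
      ∑ k ∈ Finset.range n, Real.log (kapT A u (g^[k] x)) = 0 := by
    intro n x hx h0
    refine Finset.sum_eq_zero fun k _ => ?_
    rw [hgfix k x hx h0, hkone x hx h0, Real.log_one]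
  -- bound of the generator
  obtain ⟨C0, hC0⟩ : ∃ C0 : ℝ, ∀ x ∈ M, ‖gen A x‖ ≤ C0 := hM.exists_bound_of_continuousOn hXc
  set C := max C0 1 with hCdef
  have hC1 : 1 ≤ C := le_max_right _ _
  have hCb : ∀ x ∈ M, ‖gen A x‖ ≤ C := fun x hx => (hC0 x hx).trans (le_max_left _ _)
  have hupper : ∀ n : ℕ, ∀ x ∈ M, gen A x ≠ 0 →
      Real.log ‖der M (g^[n]) x (gen A x)‖ / n ≤
        (∑ k ∈ Finset.range n, Real.log (kapT A u (g^[k] x))) / n + Real.log C / n := by
    intro n x hx h0
    have h1 : gen A (g^[n] x) ≠ 0 := fun h => h0 (hback' n x hx h)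
    rw [hite n x hx, norm_smul, Real.norm_of_nonneg (hDpos n x hx).le,
      Real.log_mul (hDpos n x hx).ne' (norm_ne_zero_iff.2 h1), hlog n x hx, ← add_div]
    refine div_le_div_of_nonneg_right ?_ (Nat.cast_nonneg n)
    have h2 := Real.log_le_log (norm_pos_iff.2 h1) (hCb _ (hgn n hx))
    linarith
  have hCn : Tendsto (fun n : ℕ => Real.log C / n) atTop (𝓝 0) :=
    tendsto_const_div_atTop_nhds_zero_nat _
  have haeM : ∀ᵐ x ∂m, x ∈ M := by
    rw [ae_iff]
    exact hm
  constructor
  · -- first part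
    intro hae
    apply hth
    filter_upwards [hae, haeM] with x hx hxM lam hlam
    by_cases h0 : gen A x = 0
    · refine Filter.Eventually.of_forall fun n => ?_
      rw [hzero n x hxM h0, zero_div]
      exact hlam.le
    · by_contra hcon
      apply hx
      refine ⟨gen A x, hQ x hxM, h0, lam / 2, by linarith, ?_⟩
      rw [Filter.not_eventually] at hcon
      have h1 : ∀ᶠ n : ℕ in atTop, Real.log C / n < - (lam / 2) :=
        hCn.eventually_lt_const (by linarith)
      refine (hcon.and_eventually h1).mono fun n hn => ?_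
      have h2 := hupper n x hxM h0
      obtain ⟨h3, h4⟩ := hn
      rw [not_le] at h3
      linarith
  · -- second part
    intro μ hμ
    obtain ⟨hμp, hμM, hbas⟩ := hμ
    have hφ : ContinuousOn (fun y => Real.log (kapT A u y)) M :=
      hkc.log fun x hx => (hkpos x hx).ne'
    have hlim : ∀ᵐ x ∂m, Tendsto
        (fun n : ℕ => (∑ k ∈ Finset.range n, Real.log (kapT A u (g^[k] x))) / n) atTop
        (𝓝 (∫ y, Real.log (kapT A u y) ∂μ)) := by
      filter_upwards [hbas] with x hx
      exact hx _ hφ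
    set lam0 := ∫ y, Real.log (kapT A u y) ∂μ with hlam0
    have hneg : lam0 < 0 := by
      by_contra hcon
      rw [not_lt] at hcon
      apply hth
      filter_upwards [hlim] with x hx lam hlam
      exact (hx.eventually_const_lt (lt_of_lt_of_le hlam hcon)).mono fun n hn => hn.le
    refine ⟨lam0 / 2, by linarith, ?_⟩
    filter_upwards [hlim, haeM] with x hx hxM
    have h0 : gen A x ≠ 0 := by
      intro h0
      have h1 : Tendsto (fun n : ℕ => (∑ k ∈ Finset.range n,
          Real.log (kapT A u (g^[k] x))) / (n : ℝ)) atTop (𝓝 0) := by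
        refine tendsto_const_nhds.congr fun n => ?_
        rw [hzero n x hxM h0, zero_div]
      have := tendsto_nhds_unique hx h1
      linarith
    refine ⟨gen A x, hQ x hxM, h0, ?_⟩
    have h1 : ∀ᶠ n : ℕ in atTop, Real.log C / n < - lam0 / 4 :=
      hCn.eventually_lt_const (by linarith)
    have h2 : ∀ᶠ n : ℕ in atTop, (∑ k ∈ Finset.range n,
        Real.log (kapT A u (g^[k] x))) / (n : ℝ) < 3 * lam0 / 4 :=
      hx.eventually_lt_const (by linarith)
    filter_upwards [h1, h2] with n h3 h4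
    have h5 := hupper n x hxM h0
    linarith

end Pool.Agent.Helper89.TOF
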